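import Pool.Agent.Helper57_K9.Stmts
import Pool.Agent.Helper50_PP.Ffa
import Pool.Agent.Helper50_PP.Bid
import Pool.Agent.Helper20_PP.Nls
import Pool.Agent.Helper74_PP.Brt

/-!
# Squad K9, row LBD (helper3): the number of modular characters of an idempotent
-/

open scoped BigOperators

noncomputable section

namespace Pool.Agent.PP.K9.H3

open Pool.Agent.Helper51_AWC Pool.Agent.Helper79_WRA Pool.Agent.PP Pool.Agent.PP.KF

attribute [local instance] Ideal.Quotient.field

theorem rnk_ : RnkStmt :=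
  Pool.Agent.PP.H74.rnk Pool.Agent.PP.H20.ibf Pool.Agent.PP.H20.eig
    (Pool.Agent.PP.H74.brt Pool.Agent.PP.H20.ibf Pool.Agent.PP.H20.ibc
    Pool.Agent.PP.H20.ibj Pool.Agent.PP.H20.ibn)

/-- row LBD -/
theorem lbd : LbdStmt := by
  intro ℓ _ M _ hM G _ _ e he h0
  have hF : GoodF ℓ (FF M) := H50.fld ℓ Fact.out M hM
  constructor
  · have hfin : {f : G → FF M | f ∈ IBr (FF M) G ∧ actF e f = f}.Finite :=
      (Pool.Agent.PP.H20.ibf ℓ (FF M) hF G).1.subset fun f hf => hf.1
    rw [Nat.one_le_iff_ne_zero, Ne, Set.ncard_eq_zero hfin]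
    have hex : ∃ (n : ℕ) (ρ : G →* Matrix (Fin n) (Fin n) (FF M)), IsIrr ρ ∧ ev ρ e ≠ 0 := by
      by_contra hcon
      push Not at hcon
      obtain ⟨k, hk⟩ := Pool.Agent.PP.H20.ibn ℓ (FF M) hF G e (fun n ρ hρ => hcon n ρ hρ)
      rw [Function.iterate_fixed he.2 k] at hk
      exact h0 hk
    obtain ⟨n, ρ, hρ, hne⟩ := hex
    obtain ⟨w, hw1, hw2, hw3⟩ := Pool.Agent.PP.H20.eig (FF M) G n ρ hρ e he.1
    have hw : w = 1 := by
      rcases hw3 he with h | h
      · exfalso
        apply hne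
        rw [hw1, h, map_zero]
      · exact h
    intro hE
    have : tr ρ ∈ {f : G → FF M | f ∈ IBr (FF M) G ∧ actF e f = f} :=
      ⟨⟨n, ρ, hρ, rfl⟩, by rw [hw2, hw, one_smul]⟩
    rw [hE] at this
    exact this
  · have h1 := rnk_ ℓ (FF M) hF G e he
    have h2 : rk e (cfs (FF M) G) = (IrrE M e).ncard := H50.chp ℓ Fact.out M hM G e he
    have h3 : rk e (TT (FF M) G ℓ) ≤ rk e (cfs (FF M) G) := by
      unfold rk
      apply Submodule.finrank_mono
      apply Submodule.map_mono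
      intro f hf
      exact hf.1
    rw [← h1, ← h2]
    exact h3

end Pool.Agent.PP.K9.H3
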