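import Pool.Agent.Helper57_K9.Stmts
import Pool.Agent.Helper50_PP.Res

/-!
# Squad K9, row PSI (helper3): the characters of the image of an idempotent
-/

open scoped BigOperators

set_option linter.unusedSectionVars false

noncomputable section

namespace Pool.Agent.PP.K9.H3

open Pool.Agent.Helper51_AWC Pool.Agent.Helper79_WRA Pool.Agent.PP Pool.Agent.PP.KF

attribute [local instance] Ideal.Quotient.field

section psi

variable {A B : Type} [Group A] [Group B]

/-- inflation along a surjective homomorphism -/
theorem irr_infl {p : A →* B} (hp : Function.Surjective p) {θ : B → ℂ} (hθ : θ ∈ Irr B) :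
    (fun a => θ (p a)) ∈ Irr A := by
  obtain ⟨n, ρ, hρ, rfl⟩ := hθ
  refine ⟨n, ρ.comp p, ?_, rfl⟩
  have f : Subrepresentation ρ ≃o Subrepresentation (ρ.comp p) :=
    { toFun := fun S => ⟨S.toSubmodule, fun g v hv => S.apply_mem_toSubmodule (p g) hv⟩
      invFun := fun S => ⟨S.toSubmodule, fun h v hv => by
        obtain ⟨g, rfl⟩ := hp h
        exact S.apply_mem_toSubmodule g hv⟩
      left_inv := fun S => rfl
      right_inv := fun S => rfl
      map_rel_iff' := Iff.rfl }
  exact (OrderIso.isSimpleOrder_iff f).1 hρ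

variable [Finite A] [Finite B] {M : Ideal (integralClosure ℤ ℂ)} [M.IsMaximal]

/-- the residue of the image -/
theorem res_push {p : A →* B} (hp : Function.Surjective p) {b : A → FF M} (hb : IsCl b)
    {θ : B → ℂ} (hθ : θ ∈ Irr B) :
    res M (H75.push p b) θ = res M b (fun a => θ (p a)) := by
  classical
  have := Fintype.ofFinite A
  have := Fintype.ofFinite B
  obtain ⟨a, ha, ea⟩ := H50.exists_lift (M := M) (b := b) hb
  have hc : H50.Cl (fun y : B => ∑ x : A, if p x = y then a x else 0) := by
    intro x y
    obtain ⟨g, rfl⟩ := hp y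
    change (∑ t : A, if p t = p g * x * (p g)⁻¹ then a t else 0) =
      ∑ t : A, if p t = x then a t else 0
    rw [← Equiv.sum_comp (MulAut.conj g).toEquiv]
    apply Finset.sum_congr rfl
    intro t _
    change (if p (g * t * g⁻¹) = p g * x * (p g)⁻¹ then a (g * t * g⁻¹) else 0) = _
    rw [ha]
    have e1 : p (g * t * g⁻¹) = p g * p t * (p g)⁻¹ := by rw [map_mul, map_mul, map_inv]
    by_cases h : p t = x
    · rw [if_pos h, if_pos]
      rw [e1, h]
    · rw [if_neg h, if_neg]
      intro h'
      apply h
      rw [e1] at h'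
      exact mul_left_cancel (mul_right_cancel h')
  have e2 : H75.push p b = fun y => Ideal.Quotient.mk M (∑ x : A, if p x = y then a x else 0) := by
    funext y
    rw [H75.push_eq, map_sum]
    apply Finset.sum_congr rfl
    intro x _
    split_ifs
    · exact (ea x).symm
    · rw [map_zero]
  have e3 : (fun t => Ideal.Quotient.mk M (a t)) = b := funext ea
  have hθ' := irr_infl hp hθ
  rw [e2, (H50.res_irr (M := M) _ hc hθ).1, ← e3, (H50.res_irr (M := M) a ha hθ').1]
  congr 1
  unfold H50.om
  congr 1
  · have h1 : ∀ y : B, (((∑ x : A, if p x = y then a x else 0 : integralClosure ℤ ℂ)) : ℂ) * θ y =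
        ∑ x : A, if p x = y then (a x : ℂ) * θ (p x) else 0 := by
      intro y
      rw [AddSubmonoidClass.coe_finsetSum, Finset.sum_mul]
      apply Finset.sum_congr rfl
      intro x _
      split_ifs with h
      · rw [h]
      · rw [ZeroMemClass.coe_zero, zero_mul]
    rw [Finset.sum_congr rfl (fun y _ => h1 y), Finset.sum_comm]
    apply Finset.sum_congr rfl
    intro x _
    rw [Finset.sum_ite_eq Finset.univ (p x), if_pos (Finset.mem_univ _)]
  · change θ 1 = θ (p 1)
    rw [map_one]

end psi

/-- row PSI -/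
theorem psi : PsiStmt := by
  intro M _ A B _ _ _ _ p hp b hb
  refine ⟨?_, fun θ hθ => irr_infl hp hθ⟩
  ext θ
  constructor
  · rintro ⟨h1, h2⟩
    refine ⟨h1, irr_infl hp h1, ?_⟩
    rw [← res_push hp hb h1]
    exact h2
  · rintro ⟨h1, h2, h3⟩
    refine ⟨h1, ?_⟩
    rw [res_push hp hb h1]
    exact h3

end Pool.Agent.PP.K9.H3
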